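import Pool.Agent.Q279.QS.Dual

/-!
# `S(7n) ≡ S(7n+5) ≡ 0 (mod 7)` for signed part sums over odd-distinct partitions
-/

set_option autoImplicit false

namespace Pool.Agent.Results.MP_ec0d67_nt.ModSeven

/-- no odd part is repeated -/
def OddDistinct {m : ℕ} (p : Nat.Partition m) : Prop :=
  ∀ i, Odd i → p.parts.count i ≤ 1

/-- sum of the odd parts minus sum of the even parts (with multiplicity) -/
def w {m : ℕ} (p : Nat.Partition m) : ℤ :=
  (p.parts.map fun i : ℕ => if Odd i then (i : ℤ) else -(i : ℤ)).sum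

open Classical in
/-- the signed part sum over all odd-distinct partitions of `m` -/
noncomputable def S (m : ℕ) : ℤ :=
  ∑ p ∈ (Finset.univ : Finset (Nat.Partition m)).filter OddDistinct, w p

end Pool.Agent.Results.MP_ec0d67_nt.ModSeven

namespace Q279.QS.EC

open Q279.QS PowerSeries Pool.Agent.Results.MP_ec0d67_nt.ModSeven

theorem prod_du {ι : Type*} (s : Finset ι) (f : ι → ℤ) :
    ∏ i ∈ s, du 1 (f i) = du 1 (∑ i ∈ s, f i) := by
  classical
  induction s using Finset.induction_on with
  | empty => simp [du_one]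
  | insert a s ha ih =>
    rw [Finset.prod_insert ha, Finset.sum_insert ha, ih, du_mul]
    congr 1 <;> ring

theorem prod_wf {m : ℕ} (p : Nat.Partition m) (hp : OddDistinct p) :
    p.parts.toFinsupp.prod wf = du 1 (w p) := by
  classical
  unfold Finsupp.prod
  rw [Multiset.toFinsupp_support]
  have h1 : ∀ i ∈ p.parts.toFinset, wf i (p.parts.toFinsupp i) =
      du 1 (p.parts.count i • (if Odd i then (i : ℤ) else -(i : ℤ))) := by
    intro i hi
    rw [Multiset.toFinsupp_apply]
    have hc : 1 ≤ p.parts.count i := Multiset.one_le_count_iff_mem.2 (Multiset.mem_toFinset.1 hi)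
    unfold wf
    split_ifs with h h'
    · rw [h', one_smul]
    · have := hp i h
      omega
    · congr 1
      rw [nsmul_eq_mul]
      ring
  rw [Finset.prod_congr rfl h1, prod_du]
  congr 1
  unfold w
  rw [Finset.sum_multiset_map_count]

theorem prod_wf_zero {m : ℕ} (p : Nat.Partition m) (hp : ¬ OddDistinct p) :
    p.parts.toFinsupp.prod wf = 0 := by
  classical
  unfold OddDistinct at hp
  push Not at hp
  obtain ⟨i, hi, hc⟩ := hp
  unfold Finsupp.prod
  rw [Multiset.toFinsupp_support]
  refine Finset.prod_eq_zero (i := i) ?_ ?_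
  · rw [Multiset.mem_toFinset]
    exact Multiset.one_le_count_iff_mem.1 (by omega)
  · rw [Multiset.toFinsupp_apply]
    unfold wf
    rw [if_pos hi, if_neg (by omega)]

theorem S_eq (m : ℕ) : S m = coeff m gS := by
  classical
  rw [gS, coeff_mk, Nat.Partition.coeff_genFun, TrivSqZeroExt.snd_sum, S, Finset.sum_filter]
  refine Finset.sum_congr rfl fun p _ => ?_
  split_ifs with h
  · rw [prod_wf p h, du_snd]
  · rw [prod_wf_zero p h]; rfl

end Q279.QS.EC

namespace Pool.Agent.Results.MP_ec0d67_nt.ModSeven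

/-- for every `n ≥ 0`, `7 ∣ S(7n)` and `7 ∣ S(7n+5)` -/
theorem result (n : ℕ) : (7 : ℤ) ∣ S (7 * n) ∧ (7 : ℤ) ∣ S (7 * n + 5) := by
  rw [Q279.QS.EC.S_eq, Q279.QS.EC.S_eq]
  exact ⟨Q279.QS.gS_dvd _ (by omega), Q279.QS.gS_dvd _ (by omega)⟩

end Pool.Agent.Results.MP_ec0d67_nt.ModSeven
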